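import Mathlib

/-!
# Looped cycles never have typical rank five (MP_541c26_co)
-/

namespace Pool.Agent.Results.MP_541c26_co.NotFive

open Matrix Finset Topology

/-- `A` is a completion of the partial matrix `m`, whose specified entries are indexed by the edge
set `E` (loops allowed) of a semisimple graph on `Fin n` -/
def IsCompletion {n : ℕ} (E : Set (Sym2 (Fin n))) (m : E → ℝ) (A : Matrix (Fin n) (Fin n) ℝ) :
    Prop :=
  A.IsSymm ∧ ∀ i j (h : s(i, j) ∈ E), A i j = m ⟨s(i, j), h⟩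

/-- the minimum completion rank -/
noncomputable def minCompletionRank {n : ℕ} (E : Set (Sym2 (Fin n))) (m : E → ℝ) : ℕ :=
  sInf {r | ∃ A : Matrix (Fin n) (Fin n) ℝ, IsCompletion E m A ∧ A.rank = r}

/-- `r` is a typical rank of the semisimple graph with edge set `E` -/
def IsTypicalRank {n : ℕ} (E : Set (Sym2 (Fin n))) (r : ℕ) : Prop :=
  (interior {m : E → ℝ | minCompletionRank E m = r}).Nonempty

/-- the looped cycle on `n` vertices: all loops, and the edges between cyclically consecutive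
vertices -/
def loopedCycle (n : ℕ) : Set (Sym2 (Fin n)) :=
  {e | ∃ i j : Fin n, e = s(i, j) ∧ (i = j ∨ (i.val + 1) % n = j.val)}

section main

variable {k : ℕ}

/-- a cyclic telescoping sum -/
lemma telescope (g : Fin (k + 1) → ℝ) (hg : ∑ i, g i = 0) :
    ∃ s : Fin (k + 1) → ℝ, ∀ i, s i - s (i + 1) = g i := by
  set G : ℕ → ℝ := fun j => if h : j < k + 1 then g ⟨j, h⟩ else 0 with hG
  refine ⟨fun i => ∑ j ∈ Finset.Ico i.val (k + 1), G j, ?_⟩
  have hGi : ∀ i : Fin (k + 1), G i.val = g i := by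
    intro i
    rw [hG]
    simp only
    rw [dif_pos i.isLt]
  intro i
  rcases Fin.eq_castSucc_or_eq_last i with ⟨j, rfl⟩ | rfl
  rotate_left
  · have h0 : ∑ j ∈ Finset.Ico 0 (k + 1), G j = 0 := by
      rw [← hg, Finset.sum_fin_eq_sum_range, Finset.range_eq_Ico]
    simp only [Fin.last_add_one, Fin.val_zero, Fin.val_last, h0, sub_zero]
    rw [Nat.Ico_succ_singleton, Finset.sum_singleton]
    simpa using hGi (Fin.last k)
  · have h1 : (j.castSucc + 1).val = j.val + 1 := by
      rw [Fin.coeSucc_eq_succ, Fin.val_succ]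
    simp only [h1, Fin.val_castSucc]
    rw [Finset.sum_eq_sum_Ico_succ_bot (show j.val < k + 1 by omega)]
    have := hGi j.castSucc
    simp only [Fin.val_castSucc] at this
    rw [this]
    ring

/-- the quadratic form whose zeros give completions -/
noncomputable def gam (t d e ρ : Fin (k + 1) → ℝ) (i : Fin (k + 1)) : ℝ :=
  (e i * ρ i * ρ (i + 1) - (1 + t i * t (i + 1)) *
    (d i * ρ i ^ 2 / (2 * (1 + t i ^ 2)) + d (i + 1) * ρ (i + 1) ^ 2 / (2 * (1 + t (i + 1) ^ 2))))
    / (t (i + 1) - t i)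

noncomputable def kap (t : Fin (k + 1) → ℝ) (i : Fin (k + 1)) : ℝ :=
  (1 + t i * t (i + 1)) / (t (i + 1) - t i)

lemma form_single (hk : 1 ≤ k) (t d e : Fin (k + 1) → ℝ) (l : Fin (k + 1)) :
    ∑ i, gam t d e (Pi.single l 1) i =
      - (d l / (2 * (1 + t l ^ 2)) * (kap t l + kap t (l - 1))) := by
  have hne : ∀ i : Fin (k + 1), i ≠ i + 1 := by
    intro i h
    have h1 : (1 : Fin (k + 1)) = 0 := by
      have : i + 0 = i + 1 := by rw [add_zero]; exact h
      exact (add_left_cancel this).symm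
    have h2 := congrArg Fin.val h1
    rw [Fin.val_zero, Fin.val_one'] at h2
    rw [Nat.mod_eq_of_lt (by omega)] at h2
    omega
  set ρ : Fin (k + 1) → ℝ := Pi.single l 1 with hρ
  have hcross : ∀ i, ρ i * ρ (i + 1) = 0 := by
    intro i
    by_cases h : i = l
    · subst h
      rw [hρ, Pi.single_eq_of_ne (hne i).symm, mul_zero]
    · rw [hρ, Pi.single_eq_of_ne h, zero_mul]
  have hsq : ∀ i, ρ i ^ 2 = if i = l then 1 else 0 := by
    intro i
    by_cases h : i = l
    · subst h
      simp [hρ]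
    · rw [hρ, Pi.single_eq_of_ne h, if_neg h]
      norm_num
  have h1 : ∀ i, gam t d e ρ i = - (d i * ρ i ^ 2 / (2 * (1 + t i ^ 2)) * kap t i) -
      (d (i + 1) * ρ (i + 1) ^ 2 / (2 * (1 + t (i + 1) ^ 2)) * kap t ((i + 1) - 1)) := by
    intro i
    unfold gam kap
    rw [mul_assoc (e i), hcross i, add_sub_cancel_right]
    ring
  simp only [h1]
  rw [Finset.sum_sub_distrib, Finset.sum_neg_distrib]
  have h2 : ∑ x, d (x + 1) * ρ (x + 1) ^ 2 / (2 * (1 + t (x + 1) ^ 2)) * kap t (x + 1 - 1) =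
      ∑ x, d x * ρ x ^ 2 / (2 * (1 + t x ^ 2)) * kap t (x - 1) :=
    Equiv.sum_comp (Equiv.addRight (1 : Fin (k + 1)))
      (fun i => d i * ρ i ^ 2 / (2 * (1 + t i ^ 2)) * kap t (i - 1))
  rw [h2]
  simp only [hsq]
  rw [Finset.sum_eq_single l, Finset.sum_eq_single l]
  · simp only [if_true]
    ring
  · intro b _ hb
    rw [if_neg hb]
    ring
  · intro h
    exact absurd (mem_univ l) h
  · intro b _ hb
    rw [if_neg hb]
    ring
  · intro h
    exact absurd (mem_univ l) h

lemma continuous_form (t d e : Fin (k + 1) → ℝ) :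
    Continuous fun ρ : Fin (k + 1) → ℝ => ∑ i, gam t d e ρ i := by
  apply continuous_finsetSum
  intro i _
  unfold gam
  fun_prop

/-- near a coordinate vector there is a positive vector -/
lemma exists_pos_near (F : (Fin (k + 1) → ℝ) → ℝ) (hF : Continuous F) (l : Fin (k + 1))
    (h : 0 < F (Pi.single l 1)) : ∃ ρ : Fin (k + 1) → ℝ, (∀ i, 0 < ρ i) ∧ 0 < F ρ := by
  have hc : Continuous fun ε : ℝ => F (Pi.single l 1 + fun _ => ε) := by
    apply hF.comp
    fun_prop
  have h0 : 0 < (fun ε : ℝ => F (Pi.single l 1 + fun _ => ε)) 0 := by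
    have : (Pi.single l 1 + fun _ => (0 : ℝ) : Fin (k + 1) → ℝ) = Pi.single l 1 := by
      ext i
      simp
    simpa [this] using h
  have hev : ∀ᶠ ε in 𝓝[>] (0 : ℝ), 0 < F (Pi.single l 1 + fun _ => ε) :=
    nhdsWithin_le_nhds (hc.continuousAt.eventually (lt_mem_nhds h0))
  obtain ⟨ε, h1, h2⟩ := (hev.and self_mem_nhdsWithin).exists
  refine ⟨_, fun i => ?_, h1⟩
  have h3 : (0 : ℝ) < ε := h2
  have h4 : (0 : ℝ) ≤ (Pi.single l 1 : Fin (k + 1) → ℝ) i := by
    by_cases hi : i = l
    · subst hi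
      simp
    · rw [Pi.single_eq_of_ne hi]
  simp only [Pi.add_apply]
  linarith

/-- a positive zero of the form -/
lemma exists_zero (F : (Fin (k + 1) → ℝ) → ℝ) (hF : Continuous F) (a b : Fin (k + 1))
    (ha : 0 < F (Pi.single a 1)) (hb : F (Pi.single b 1) < 0) :
    ∃ ρ : Fin (k + 1) → ℝ, (∀ i, 0 < ρ i) ∧ F ρ = 0 := by
  obtain ⟨ρ₁, h1, h1'⟩ := exists_pos_near F hF a ha
  obtain ⟨ρ₂, h2, h2'⟩ := exists_pos_near (fun ρ => - F ρ) hF.neg b (by simpa using hb)
  have hconv : Convex ℝ {ρ : Fin (k + 1) → ℝ | ∀ i, 0 < ρ i} := by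
    intro x hx y hy u v hu hv huv i
    simp only [Pi.add_apply, Pi.smul_apply, smul_eq_mul]
    have hxi := hx i
    have hyi := hy i
    rcases hu.eq_or_lt with rfl | hu
    · rw [zero_add] at huv
      subst huv
      simpa using hyi
    · have := mul_pos hu hxi
      have := mul_nonneg hv hyi.le
      linarith
  have := hconv.isPreconnected.intermediate_value (a := ρ₂) (b := ρ₁) h2 h1 hF.continuousOn
  obtain ⟨ρ, hρ, hρ0⟩ := this ⟨by linarith, h1'.le⟩
  exact ⟨ρ, hρ, hρ0⟩

/-- the matrix with prescribed cyclic entries -/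
lemma exists_matrix (t d e ρ : Fin (k + 1) → ℝ) (ht : ∀ i, t (i + 1) ≠ t i)
    (hρ : ∀ i, 0 < ρ i) (h0 : ∑ i, gam t d e ρ i = 0) :
    ∃ A : Matrix (Fin (k + 1)) (Fin (k + 1)) ℝ, A.IsSymm ∧ (∀ i, A i i = d i) ∧
      (∀ i, A i (i + 1) = e i) ∧ A.rank ≤ 4 := by
  obtain ⟨s, hs⟩ := telescope _ h0
  set P : Matrix (Fin 2) (Fin (k + 1)) ℝ := fun r i => ![1 / ρ i, t i / ρ i] r with hP
  set Q : Matrix (Fin 2) (Fin (k + 1)) ℝ := fun r i =>
    ![d i * ρ i / (2 * (1 + t i ^ 2)) - s i * t i / ρ i,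
      d i * ρ i * t i / (2 * (1 + t i ^ 2)) + s i / ρ i] r with hQ
  have hA : ∀ i j, (Pᵀ * Q + Qᵀ * P) i j =
      1 / ρ i * (d j * ρ j / (2 * (1 + t j ^ 2)) - s j * t j / ρ j) +
      t i / ρ i * (d j * ρ j * t j / (2 * (1 + t j ^ 2)) + s j / ρ j) +
      ((d i * ρ i / (2 * (1 + t i ^ 2)) - s i * t i / ρ i) * (1 / ρ j) +
      (d i * ρ i * t i / (2 * (1 + t i ^ 2)) + s i / ρ i) * (t j / ρ j)) := by
    intro i j
    simp [Matrix.add_apply, Matrix.mul_apply, Fin.sum_univ_two, hP, hQ]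
  refine ⟨Pᵀ * Q + Qᵀ * P, ?_, ?_, ?_, ?_⟩
  · rw [Matrix.IsSymm, Matrix.transpose_add, Matrix.transpose_mul, Matrix.transpose_mul,
      Matrix.transpose_transpose, Matrix.transpose_transpose]
    exact add_comm _ _
  · intro i
    rw [hA]
    have h1 := (hρ i).ne'
    have h2 : (1 + t i ^ 2) ≠ 0 := by positivity
    field_simp
    ring
  · intro i
    rw [hA]
    have hsi := hs i
    unfold gam at hsi
    have h1 := (hρ i).ne'
    have h2 : (1 + t i ^ 2) ≠ 0 := by positivity
    have h3 := (hρ (i + 1)).ne'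
    have h4 : (1 + t (i + 1) ^ 2) ≠ 0 := by positivity
    have h5 : t (i + 1) - t i ≠ 0 := sub_ne_zero.2 (ht i)
    rw [eq_div_iff h5] at hsi
    have key : 1 / ρ i * (d (i + 1) * ρ (i + 1) / (2 * (1 + t (i + 1) ^ 2)) -
        s (i + 1) * t (i + 1) / ρ (i + 1)) +
      t i / ρ i * (d (i + 1) * ρ (i + 1) * t (i + 1) / (2 * (1 + t (i + 1) ^ 2)) +
        s (i + 1) / ρ (i + 1)) +
      ((d i * ρ i / (2 * (1 + t i ^ 2)) - s i * t i / ρ i) * (1 / ρ (i + 1)) +
      (d i * ρ i * t i / (2 * (1 + t i ^ 2)) + s i / ρ i) * (t (i + 1) / ρ (i + 1))) =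
      ((1 + t i * t (i + 1)) *
        (d i * ρ i ^ 2 / (2 * (1 + t i ^ 2)) +
          d (i + 1) * ρ (i + 1) ^ 2 / (2 * (1 + t (i + 1) ^ 2))) +
        (s i - s (i + 1)) * (t (i + 1) - t i)) / (ρ i * ρ (i + 1)) := by
      field_simp
      ring
    rw [key, hsi]
    field_simp
    ring
  · rw [← Matrix.fromCols_mul_fromRows]
    refine (Matrix.rank_mul_le_right _ _).trans ?_
    refine (Matrix.rank_le_card_height _).trans ?_
    simp

/-- the choice of the slopes `t` -/
lemma exists_slopes (hk : 3 ≤ k) (x y : ℝ) (hx : x ≠ 0) (hy : y ≠ 0) :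
    ∃ t : Fin (k + 1) → ℝ, (∀ i, t (i + 1) ≠ t i) ∧
      x * (kap t 0 + kap t (0 - 1)) < 0 ∧ 0 < y * (kap t 1 + kap t (1 - 1)) := by
  -- values `a` at index two and `b` at the last index
  have hval : ∀ i : Fin (k + 1), (i + 1).val = if i.val = k then 0 else i.val + 1 := by
    intro i
    rcases Fin.eq_castSucc_or_eq_last i with ⟨j, rfl⟩ | rfl
    · rw [Fin.coeSucc_eq_succ, Fin.val_succ, Fin.val_castSucc, if_neg (by omega)]
    · rw [Fin.last_add_one, Fin.val_last, if_pos rfl, Fin.val_zero]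
  have h1v : (1 : Fin (k + 1)).val = 1 := by
    rw [Fin.val_one', Nat.mod_eq_of_lt (by omega)]
  have hm1 : (0 - 1 : Fin (k + 1)) = Fin.last k := by
    rw [sub_eq_iff_eq_add, Fin.last_add_one]
  have hmain : ∀ a b : ℝ, (a = 2 ∨ a = 1 / 2) → (b = 3 ∨ b = 1 / 3) →
      ∃ t : Fin (k + 1) → ℝ, (∀ i, t (i + 1) ≠ t i) ∧
        kap t 0 + kap t (0 - 1) = 1 - 1 / b ∧
        kap t 1 + kap t (1 - 1) = (1 + a) / (a - 1) + 1 := by
    intro a b ha hb
    set f : ℕ → ℝ := fun j => if j = 0 then 0 else if j = 1 then 1 else if j = 2 then a else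
      if j = k then b else 10 + (j : ℝ) with hf
    have ha0 : 0 < a ∧ a < 3 ∧ a ≠ 1 ∧ a ≠ b := by
      rcases ha with rfl | rfl <;> rcases hb with rfl | rfl <;> norm_num
    have hb0 : 0 < b ∧ b < 4 := by
      rcases hb with rfl | rfl <;> norm_num
    have f0 : f 0 = 0 := by simp [hf]
    have f1 : f 1 = 1 := by simp [hf]
    have f2 : f 2 = a := by simp [hf]
    have fk : f k = b := by
      simp only [hf]
      rw [if_neg (by omega), if_neg (by omega), if_neg (by omega), if_pos trivial]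
    have fj : ∀ j, 3 ≤ j → j < k → f j = 10 + (j : ℝ) := by
      intro j h1 h2
      simp only [hf]
      rw [if_neg (by omega), if_neg (by omega), if_neg (by omega), if_neg (by omega)]
    refine ⟨fun i => f i.val, ?_, ?_, ?_⟩
    · intro i
      simp only [hval]
      by_cases hik : i.val = k
      · rw [if_pos hik, hik, f0, fk]
        exact hb0.1.ne
      · rw [if_neg hik]
        have hik' : i.val < k := by have := i.isLt; omega
        generalize i.val = j at hik hik'
        rcases Nat.lt_or_ge j 3 with h | h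
        · interval_cases j
          · rw [f0, f1]; norm_num
          · rw [f1, f2]; exact ha0.2.2.1
          · rcases Nat.lt_or_ge 3 k with h3 | h3
            · rw [f2, fj 3 le_rfl h3]
              push_cast
              linarith [ha0.2.1]
            · have h4 : k = 3 := by omega
              rw [f2, show 2 + 1 = k by omega, fk]
              exact ha0.2.2.2.symm
        · rcases Nat.lt_or_ge (j + 1) k with h3 | h3
          · rw [fj j h hik', fj (j + 1) (by omega) h3]
            push_cast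
            linarith
          · have h4 : j + 1 = k := by omega
            rw [h4, fk, fj j h hik']
            have := hb0.2
            have h5 : (0 : ℝ) ≤ j := Nat.cast_nonneg j
            linarith
    · unfold kap
      rw [hm1]
      simp only [hval, Fin.val_last, if_true, Fin.val_zero]
      rw [if_neg (by omega), f0, fk, zero_add, f1]
      have := hb0.1.ne'
      field_simp
      ring
    · unfold kap
      rw [sub_self]
      simp only [hval, h1v, Fin.val_zero]
      rw [if_neg (by omega), if_neg (by omega), zero_add, f0, f1, f2]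
      ring
  rcases lt_or_gt_of_ne hx with hx | hx <;> rcases lt_or_gt_of_ne hy with hy | hy
  · obtain ⟨t, h1, h2, h3⟩ := hmain (1 / 2) 3 (Or.inr rfl) (Or.inl rfl)
    refine ⟨t, h1, ?_, ?_⟩
    · rw [h2]; norm_num; linarith
    · rw [h3]; norm_num; linarith
  · obtain ⟨t, h1, h2, h3⟩ := hmain 2 3 (Or.inl rfl) (Or.inl rfl)
    refine ⟨t, h1, ?_, ?_⟩
    · rw [h2]; norm_num; linarith
    · rw [h3]; norm_num; linarith
  · obtain ⟨t, h1, h2, h3⟩ := hmain (1 / 2) (1 / 3) (Or.inr rfl) (Or.inr rfl)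
    refine ⟨t, h1, ?_, ?_⟩
    · rw [h2]; norm_num; linarith
    · rw [h3]; norm_num; linarith
  · obtain ⟨t, h1, h2, h3⟩ := hmain 2 (1 / 3) (Or.inl rfl) (Or.inr rfl)
    refine ⟨t, h1, ?_, ?_⟩
    · rw [h2]; norm_num; linarith
    · rw [h3]; norm_num; linarith

/-- all cyclic data with nonzero diagonal entries have a completion of rank at most four -/
theorem exists_rank_four (hk : 3 ≤ k) (d e : Fin (k + 1) → ℝ) (hd : ∀ i, d i ≠ 0) :
    ∃ A : Matrix (Fin (k + 1)) (Fin (k + 1)) ℝ, A.IsSymm ∧ (∀ i, A i i = d i) ∧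
      (∀ i, A i (i + 1) = e i) ∧ A.rank ≤ 4 := by
  obtain ⟨t, h1, h2, h3⟩ := exists_slopes hk (d 0) (d 1) (hd 0) (hd 1)
  have e1 := form_single (show 1 ≤ k by omega) t d e 0
  have e2 := form_single (show 1 ≤ k by omega) t d e 1
  obtain ⟨ρ, hρ, h0⟩ := exists_zero (fun ρ => ∑ i, gam t d e ρ i) (continuous_form t d e) 0 1
    (by
      rw [e1]
      have : d 0 / (2 * (1 + t 0 ^ 2)) * (kap t 0 + kap t (0 - 1)) =
        (d 0 * (kap t 0 + kap t (0 - 1))) / (2 * (1 + t 0 ^ 2)) := by ring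
      rw [this, neg_pos]
      exact div_neg_of_neg_of_pos h2 (by positivity))
    (by
      rw [e2]
      have : d 1 / (2 * (1 + t 1 ^ 2)) * (kap t 1 + kap t (1 - 1)) =
        (d 1 * (kap t 1 + kap t (1 - 1))) / (2 * (1 + t 1 ^ 2)) := by ring
      rw [this, neg_lt_zero]
      exact div_pos h3 (by positivity))
  exact exists_matrix t d e ρ h1 hρ h0

end main

lemma loop_mem {n : ℕ} (i : Fin n) : s(i, i) ∈ loopedCycle n := ⟨i, i, rfl, Or.inl rfl⟩

/-- every partial matrix of the looped cycle with nonzero diagonal entries has a completion of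
rank at most four -/
theorem minRank_le_four (n : ℕ) (hn : 4 ≤ n) (m : loopedCycle n → ℝ)
    (hm : ∀ i : Fin n, m ⟨s(i, i), loop_mem i⟩ ≠ 0) :
    minCompletionRank (loopedCycle n) m ≤ 4 := by
  obtain ⟨k, rfl⟩ : ∃ k, n = k + 1 := ⟨n - 1, by omega⟩
  have hval : ∀ i : Fin (k + 1), (i.val + 1) % (k + 1) = (i + 1).val := by
    intro i
    rcases Fin.eq_castSucc_or_eq_last i with ⟨j, rfl⟩ | rfl
    · rw [Fin.coeSucc_eq_succ, Fin.val_succ, Fin.val_castSucc, Nat.mod_eq_of_lt (by omega)]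
    · rw [Fin.last_add_one, Fin.val_last, Nat.mod_self, Fin.val_zero]
  have hnext : ∀ i : Fin (k + 1), s(i, i + 1) ∈ loopedCycle (k + 1) := fun i =>
    ⟨i, i + 1, rfl, Or.inr (hval i)⟩
  obtain ⟨A, hsymm, h1, h2, h3⟩ := exists_rank_four (show 3 ≤ k by omega)
    (fun i => m ⟨s(i, i), loop_mem i⟩) (fun i => m ⟨s(i, i + 1), hnext i⟩) hm
  have hcompl : IsCompletion (loopedCycle (k + 1)) m A → minCompletionRank _ m ≤ A.rank :=
    fun h => Nat.sInf_le (show A.rank ∈ {r | ∃ A : Matrix (Fin (k + 1)) (Fin (k + 1)) ℝ,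
      IsCompletion (loopedCycle (k + 1)) m A ∧ A.rank = r} from ⟨A, h, rfl⟩)
  refine (hcompl ⟨hsymm, ?_⟩).trans h3
  intro i j h
  obtain ⟨a, b, hab, hor⟩ := id h
  have hb : b = a ∨ b = a + 1 := by
    rcases hor with rfl | hor
    · exact Or.inl rfl
    · right
      rw [hval] at hor
      exact Fin.ext hor.symm
  rw [Sym2.eq_iff] at hab
  rcases hb with rfl | rfl
  · rcases hab with ⟨rfl, rfl⟩ | ⟨rfl, rfl⟩
    · exact h1 _
    · exact h1 _
  · rcases hab with ⟨rfl, rfl⟩ | ⟨rfl, rfl⟩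
    · exact h2 _
    · rw [← hsymm.apply]
      rw [h2 j]
      congr 1
      exact Subtype.ext Sym2.eq_swap

/-- any completion has rank at most `n` -/
lemma minRank_le_card (n : ℕ) (E : Set (Sym2 (Fin n))) (m : E → ℝ) :
    minCompletionRank E m ≤ n := by
  classical
  set A : Matrix (Fin n) (Fin n) ℝ := fun i j => if h : s(i, j) ∈ E then m ⟨s(i, j), h⟩ else 0
    with hA
  have hc : IsCompletion E m A := by
    refine ⟨?_, ?_⟩
    · ext i j
      have : s(j, i) = s(i, j) := Sym2.eq_swap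
      simp only [Matrix.transpose_apply, hA, this]
    · intro i j h
      simp only [hA, dif_pos h]
  exact (Nat.sInf_le (show A.rank ∈ {r | ∃ A : Matrix (Fin n) (Fin n) ℝ,
      IsCompletion E m A ∧ A.rank = r} from ⟨A, hc, rfl⟩)).trans A.rank_le_width

/-- **No looped cycle has typical rank five** (or more); in particular its maximum typical rank is
never five.  In fact for `n ≥ 4` every partial matrix with nonzero diagonal entries has a
completion of rank at most four. -/
theorem result :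
    (¬ ∃ n : ℕ, 3 ≤ n ∧ IsGreatest {r | IsTypicalRank (loopedCycle n) r} 5) ∧
    (∀ n : ℕ, 3 ≤ n → ∀ r, IsTypicalRank (loopedCycle n) r → r ≤ 4) ∧
    (∀ n : ℕ, 4 ≤ n → ∀ m : loopedCycle n → ℝ,
      (∀ i : Fin n, m ⟨s(i, i), loop_mem i⟩ ≠ 0) → minCompletionRank (loopedCycle n) m ≤ 4) := by
  have key : ∀ n : ℕ, 3 ≤ n → ∀ r, IsTypicalRank (loopedCycle n) r → r ≤ 4 := by
    intro n hn r hr
    rcases Nat.lt_or_ge n 4 with h4 | h4
    · obtain ⟨m, hm⟩ := hr
      have h1 := interior_subset hm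
      rw [Set.mem_ofPred_eq] at h1
      have h2 := minRank_le_card n (loopedCycle n) m
      omega
    · obtain ⟨m, hm⟩ := hr
      -- perturb the diagonal entries
      have hc : Continuous fun ε : ℝ => (m + fun _ => ε : loopedCycle n → ℝ) := by fun_prop
      have h0 : (m + fun _ => (0 : ℝ) : loopedCycle n → ℝ) = m := by
        ext x
        simp
      have hU : ∀ᶠ ε in 𝓝[≠] (0 : ℝ), (m + fun _ => ε : loopedCycle n → ℝ) ∈
          interior {m : loopedCycle n → ℝ | minCompletionRank (loopedCycle n) m = r} := by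
        apply nhdsWithin_le_nhds
        apply hc.continuousAt.eventually
        simp only [h0]
        exact isOpen_interior.mem_nhds hm
      have hnz : ∀ᶠ ε in 𝓝[≠] (0 : ℝ), ∀ i : Fin n, m ⟨s(i, i), loop_mem i⟩ + ε ≠ 0 := by
        rw [Filter.eventually_all]
        intro i
        by_cases hi : m ⟨s(i, i), loop_mem i⟩ = 0
        · filter_upwards [self_mem_nhdsWithin] with ε hε
          rw [hi, zero_add]
          exact hε
        · apply nhdsWithin_le_nhds
          have hc2 : Continuous fun ε : ℝ => m ⟨s(i, i), loop_mem i⟩ + ε := by fun_prop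
          apply hc2.continuousAt.eventually_ne
          simpa using hi
      obtain ⟨ε, h1, h2⟩ := (hU.and hnz).exists
      have h3 := interior_subset h1
      have h4 := minRank_le_four n h4 (m + fun _ => ε) h2
      rw [Set.mem_ofPred_eq] at h3
      rw [← h3]
      exact h4
  refine ⟨?_, key, minRank_le_four⟩
  rintro ⟨n, hn, h5, -⟩
  have := key n hn 5 h5
  omega

end Pool.Agent.Results.MP_541c26_co.NotFive
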